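import Mathlib
import Pool.Agent.N751.LS.Pole

/-!
# Closed points of bounded degree on affine varieties: construction of many points

`A` is a domain, finite over a polynomial ring `R` in `s` variables over the number field `K`. Over
each point `(v_1, …, τ, …, v_s)` of the line `X_i = v_i` (`i ≠ i₀`) there is a point of `Spec A` whose
degree and height are bounded in terms of `τ`.
-/

set_option autoImplicit false
set_option linter.unusedSectionVars false

namespace Pool.Agent.N751.VD

open NumberField Module Polynomial Height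

/-- the height of the point with affine coordinates `v` is at most the sum of the heights -/
theorem ht_tuple_le {M : Type} [Field M] [NumberField M] {N : ℕ} (v : Fin N → M) :
    logHeight (Fin.cons 1 v : Fin (N + 1) → M) ≤ ∑ j, logHeight₁ (v j) := by
  classical
  have hx0 : ∀ j, (![v j, 1] : Fin 2 → M) ≠ 0 := by
    intro j h
    have := congrFun h 1
    simp at this
  have h1 : logHeight (fun I : Fin N → Fin 2 => ∏ j, (![v j, 1] : Fin 2 → M) (I j)) =
      ∑ j, logHeight₁ (v j) := by
    rw [logHeight_fun_prod_eq (x := fun (j : Fin N) => (![v j, 1] : Fin 2 → M)) hx0]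
    simp [logHeight₁_eq_logHeight]
  rw [← h1]
  have hmem : ∀ i : Fin (N + 1), ∃ I : Fin N → Fin 2,
      (Fin.cons 1 v : Fin (N + 1) → M) i = ∏ j, (![v j, 1] : Fin 2 → M) (I j) := by
    intro i
    refine Fin.cases ?_ (fun k => ?_) i
    · exact ⟨fun _ => 1, by simp⟩
    · refine ⟨fun j => if j = k then 0 else 1, ?_⟩
      have h2 : ∀ j : Fin N, (![v j, 1] : Fin 2 → M) (if j = k then 0 else 1) =
          if j = k then v j else 1 := by
        intro j
        split_ifs <;> simp
      rw [Finset.prod_congr rfl fun j _ => h2 j, Finset.prod_ite_eq']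
      simp
  have hv : ∀ w : AbsoluteValue M ℝ, ⨆ i : Fin (N + 1), w ((Fin.cons 1 v : Fin (N + 1) → M) i) ≤
      ⨆ I : Fin N → Fin 2, w (∏ j, (![v j, 1] : Fin 2 → M) (I j)) := by
    intro w
    refine ciSup_le fun i => ?_
    obtain ⟨I, hI⟩ := hmem i
    rw [hI]
    exact Finite.le_ciSup_of_le I le_rfl
  have h := Pool.Agent.N265.CV.logHeight_le_of (K := M)
    (x := (Fin.cons 1 v : Fin (N + 1) → M))
    (y := fun I : Fin N → Fin 2 => ∏ j, (![v j, 1] : Fin 2 → M) (I j)) (by
      intro h
      have := congrFun h 0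
      simp at this) (by
      intro h
      have := congrFun h (fun _ => 1)
      simp at this) 1 le_rfl (fun w => by
        rw [Nat.cast_one, one_mul]
        exact hv w) (fun w _ => hv w)
  simpa using h

/-- the heights of the coordinates -/
theorem ht_coord_le {M : Type} [Field M] [NumberField M] {N : ℕ} (v : Fin N → M) (j : Fin N) :
    logHeight₁ (v j) ≤ logHeight (Fin.cons 1 v : Fin (N + 1) → M) := by
  rw [logHeight₁_eq_logHeight]
  have hmem : ∀ i : Fin 2, ∃ k : Fin (N + 1),
      (![v j, 1] : Fin 2 → M) i = (Fin.cons 1 v : Fin (N + 1) → M) k := by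
    intro i
    fin_cases i
    · exact ⟨j.succ, by simp⟩
    · exact ⟨0, by simp⟩
  have hv : ∀ w : AbsoluteValue M ℝ, ⨆ i : Fin 2, w ((![v j, 1] : Fin 2 → M) i) ≤
      ⨆ k : Fin (N + 1), w ((Fin.cons 1 v : Fin (N + 1) → M) k) := by
    intro w
    refine ciSup_le fun i => ?_
    obtain ⟨k, hk⟩ := hmem i
    rw [hk]
    exact Finite.le_ciSup_of_le k le_rfl
  have h := Pool.Agent.N265.CV.logHeight_le_of (K := M)
    (x := (![v j, 1] : Fin 2 → M)) (y := (Fin.cons 1 v : Fin (N + 1) → M)) (by
      intro h
      have := congrFun h 1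
      simp at this) (by
      intro h
      have := congrFun h 0
      simp at this) 1 le_rfl (fun w => by
        rw [Nat.cast_one, one_mul]
        exact hv w) (fun w _ => hv w)
  simpa using h

section

variable {K : Type} [Field K] [NumberField K] {s : ℕ}

/-- restriction of polynomials to the line `X_i = v_i`, `i ≠ i₀` -/
noncomputable def line (i₀ : Fin s) (v : Fin s → K) : MvPolynomial (Fin s) K →ₐ[K] K[X] :=
  MvPolynomial.aeval fun i => if i = i₀ then X else C (v i)

theorem line_surj (i₀ : Fin s) (v : Fin s → K) : Function.Surjective (line i₀ v) := by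
  intro p
  refine ⟨Polynomial.aeval (MvPolynomial.X i₀ : MvPolynomial (Fin s) K) p, ?_⟩
  rw [← Polynomial.aeval_algHom_apply]
  have : line i₀ v (MvPolynomial.X i₀) = X := by simp [line]
  rw [this, aeval_X_left_apply]

/-- a nonzero polynomial does not vanish on some line -/
theorem exists_line (i₀ : Fin s) (a : MvPolynomial (Fin s) K) (ha : a ≠ 0) :
    ∃ v : Fin s → K, line i₀ v a ≠ 0 := by
  have h1 : ∃ v : Fin s → K, MvPolynomial.eval v a ≠ 0 := by
    by_contra hcon
    push Not at hcon
    apply ha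
    apply MvPolynomial.funext
    intro v
    rw [hcon v, map_zero]
  obtain ⟨v, hv⟩ := h1
  refine ⟨v, fun h => hv ?_⟩
  have h2 : (Polynomial.aeval (v i₀) : K[X] →ₐ[K] K).comp (line i₀ v) = MvPolynomial.aeval v := by
    apply MvPolynomial.algHom_ext
    intro i
    rw [AlgHom.comp_apply]
    unfold line
    rw [MvPolynomial.aeval_X, MvPolynomial.aeval_X]
    split_ifs with h
    · rw [h, aeval_X]
    · rw [aeval_C]
      rfl
  have h3 := congrArg (fun f : MvPolynomial (Fin s) K →ₐ[K] K => f a) h2
  simp only [AlgHom.comp_apply, h, map_zero] at h3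
  rw [← MvPolynomial.coe_aeval_eq_eval]
  exact h3.symm

variable {A : Type} [CommRing A] [Algebra K A] [Algebra (MvPolynomial (Fin s) K) A]
  [IsScalarTower K (MvPolynomial (Fin s) K) A] [Module.Finite (MvPolynomial (Fin s) K) A]
  [FaithfulSMul (MvPolynomial (Fin s) K) A]

/-- the points above a line -/
theorem pt : ∃ b : ℕ, 1 ≤ b ∧ ∀ (i₀ : Fin s) (v : Fin s → K)
    (M₀ : Type) [Field M₀] [NumberField M₀] [Algebra K M₀] (τ : M₀),
      Function.Surjective (Polynomial.aeval τ : K[X] →ₐ[K] M₀) →
      ∃ (M : Type) (_ : Field M) (_ : NumberField M) (_ : Algebra K M) (x : A →ₐ[K] M)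
        (_ : Algebra M₀ M) (_ : IsScalarTower K M₀ M), Function.Surjective x ∧
        (∀ r : MvPolynomial (Fin s) K, x (algebraMap (MvPolynomial (Fin s) K) A r) =
          Polynomial.aeval (algebraMap M₀ M τ) (line i₀ v r)) ∧
        finrank M₀ M ≤ b := by
  classical
  obtain ⟨b, a, hab⟩ := Module.Finite.exists_fin (R := MvPolynomial (Fin s) K) (M := A)
  refine ⟨b + 1, Nat.succ_pos b, ?_⟩
  intro i₀ v M₀ _ _ _ τ hτ
  set φ : MvPolynomial (Fin s) K →ₐ[K] M₀ := (Polynomial.aeval τ).comp (line i₀ v) with hφ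
  have hφs : Function.Surjective φ := hτ.comp (line_surj i₀ v)
  have hmax : (RingHom.ker φ).IsMaximal := RingHom.ker_isMaximal_of_surjective φ hφs
  have hker : RingHom.ker (algebraMap (MvPolynomial (Fin s) K) A) ≤ RingHom.ker φ := by
    have : RingHom.ker (algebraMap (MvPolynomial (Fin s) K) A) = ⊥ :=
      (RingHom.injective_iff_ker_eq_bot _).1 (FaithfulSMul.algebraMap_injective _ _)
    rw [this]
    exact bot_le
  have hint : Algebra.IsIntegral (MvPolynomial (Fin s) K) A := Algebra.IsIntegral.of_finite _ _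
  obtain ⟨Q, hQ, hQP⟩ := Ideal.exists_ideal_over_maximal_of_isIntegral (S := A) (RingHom.ker φ) hker
  have hft : Algebra.FiniteType K A :=
    Algebra.FiniteType.trans (S := MvPolynomial (Fin s) K) inferInstance inferInstance
  let _ : Field (A ⧸ Q) := Ideal.Quotient.field Q
  have hft2 : Algebra.FiniteType K (A ⧸ Q) := inferInstance
  have hfin : Module.Finite K (A ⧸ Q) := finite_of_finite_type_of_isJacobsonRing K (A ⧸ Q)
  have hch : CharZero (A ⧸ Q) := charZero_of_injective_algebraMap (algebraMap K (A ⧸ Q)).injective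
  have hQQ : FiniteDimensional ℚ (A ⧸ Q) := Module.Finite.trans K (A ⧸ Q)
  have hNF : NumberField (A ⧸ Q) := ⟨⟩
  set ψ : MvPolynomial (Fin s) K →ₐ[K] A ⧸ Q :=
    (Ideal.Quotient.mkₐ K Q).comp (IsScalarTower.toAlgHom K (MvPolynomial (Fin s) K) A) with hψ
  have hψk : ∀ r, φ r = 0 → ψ r = 0 := by
    intro r hr
    have h1 : r ∈ Q.comap (algebraMap (MvPolynomial (Fin s) K) A) := by
      rw [hQP]
      exact hr
    rw [Ideal.mem_comap] at h1
    exact Ideal.Quotient.eq_zero_iff_mem.2 h1
  let e := Ideal.quotientKerAlgEquivOfSurjective hφs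
  let ι : M₀ →ₐ[K] A ⧸ Q := (Ideal.Quotient.liftₐ (RingHom.ker φ) ψ hψk).comp e.symm.toAlgHom
  have hι : ∀ r, ι (φ r) = ψ r := by
    intro r
    have h1 : e (Ideal.Quotient.mk (RingHom.ker φ) r) = φ r := rfl
    have h2 : e.symm (φ r) = Ideal.Quotient.mk (RingHom.ker φ) r := by
      rw [← h1, AlgEquiv.symm_apply_apply]
    show Ideal.Quotient.liftₐ (RingHom.ker φ) ψ hψk (e.symm (φ r)) = ψ r
    rw [h2]
    rfl
  let _ : Algebra M₀ (A ⧸ Q) := ι.toRingHom.toAlgebra
  have htow : IsScalarTower K M₀ (A ⧸ Q) := IsScalarTower.of_algebraMap_eq fun c => (ι.commutes c).symm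
  refine ⟨A ⧸ Q, inferInstance, hNF, inferInstance, Ideal.Quotient.mkₐ K Q, inferInstance, htow,
    Ideal.Quotient.mkₐ_surjective K Q, ?_, ?_⟩
  · intro r
    have h1 : Polynomial.aeval (algebraMap M₀ (A ⧸ Q) τ) (line i₀ v r) = ι (φ r) := by
      show Polynomial.aeval (ι τ) (line i₀ v r) = ι (φ r)
      rw [Polynomial.aeval_algHom_apply]
      rfl
    rw [h1, hι]
    rfl
  · have hspan : Submodule.span M₀ (Set.range fun i => Ideal.Quotient.mk Q (a i)) = ⊤ := by
      rw [eq_top_iff]
      intro z _
      obtain ⟨z', rfl⟩ := Ideal.Quotient.mk_surjective z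
      have hz : z' ∈ Submodule.span (MvPolynomial (Fin s) K) (Set.range a) := by
        rw [hab]
        exact Submodule.mem_top
      obtain ⟨c, hc⟩ := (Submodule.mem_span_range_iff_exists_fun _).1 hz
      rw [← hc, map_sum]
      refine Submodule.sum_mem _ fun i _ => ?_
      rw [Algebra.smul_def, map_mul]
      have h1 : Ideal.Quotient.mk Q (algebraMap (MvPolynomial (Fin s) K) A (c i)) = ι (φ (c i)) :=
        (hι (c i)).symm
      rw [h1]
      have h2 : ι (φ (c i)) * Ideal.Quotient.mk Q (a i) =
          (φ (c i)) • (Ideal.Quotient.mk Q (a i)) := rfl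
      rw [h2]
      exact Submodule.smul_mem _ _ (Submodule.subset_span ⟨i, rfl⟩)
    have h1 := finrank_range_le_card (R := M₀) (fun i => Ideal.Quotient.mk Q (a i))
    unfold Set.finrank at h1
    rw [hspan, finrank_top, Fintype.card_fin] at h1
    exact h1.trans (Nat.le_succ b)

omit [FaithfulSMul (MvPolynomial (Fin s) K) A] in
/-- the heights of the values of an integral element -/
theorem ht_val (y : A) : ∃ m : ℕ, ∀ (i₀ : Fin s) (v : Fin s → K), ∃ C : ℝ, 0 ≤ C ∧
    ∀ (M : Type) [Field M] [NumberField M] [Algebra K M] (x : A →ₐ[K] M) (t : M),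
      (∀ r : MvPolynomial (Fin s) K, x (algebraMap (MvPolynomial (Fin s) K) A r) =
          Polynomial.aeval t (line i₀ v r)) →
      logHeight₁ (x y) ≤ m * logHeight₁ t + finrank ℚ M * C := by
  classical
  have hint : Algebra.IsIntegral (MvPolynomial (Fin s) K) A := Algebra.IsIntegral.of_finite _ _
  obtain ⟨P, hP, hP0⟩ := hint.isIntegral y
  set m : ℕ := (Finset.range (P.natDegree + 1)).sup fun i => (P.coeff i).totalDegree with hm
  refine ⟨m, fun i₀ v => ?_⟩
  set r : ℕ → K[X] := fun i => line i₀ v (P.coeff i) with hr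
  have hrm : ∀ i, (r i).natDegree ≤ m := by
    intro i
    by_cases hi : i < P.natDegree + 1
    · have h1 : (P.coeff i).totalDegree ≤ m :=
        Finset.le_sup (f := fun i => (P.coeff i).totalDegree) (Finset.mem_range.2 hi)
      have h2 := MvPolynomial.aeval_natDegree_le (n := 1) (P.coeff i) h1
        (fun j : Fin s => if j = i₀ then (X : K[X]) else C (v j)) (fun j => by
          split_ifs
          · exact natDegree_X_le
          · rw [natDegree_C]
            exact Nat.zero_le _)
      rw [mul_one] at h2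
      exact h2
    · have : r i = 0 := by
        rw [hr]
        simp only
        rw [coeff_eq_zero_of_natDegree_lt (by omega), map_zero]
      rw [this, natDegree_zero]
      exact Nat.zero_le _
  obtain ⟨C, hC, h⟩ := Pool.Agent.N751.LS.ht_rel P.natDegree m r hrm
  refine ⟨C, hC, ?_⟩
  intro M _ _ _ x t hx
  refine h M t (x y) ?_ ?_
  · have : r P.natDegree = 1 := by
      rw [hr]
      simp only
      rw [hP.coeff_natDegree, map_one]
    rw [this, map_one]
    exact one_ne_zero
  · have h1 : eval₂ (algebraMap (MvPolynomial (Fin s) K) A) y P = 0 := hP0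
    rw [eval₂_eq_sum_range] at h1
    have h2 := congrArg x h1
    rw [map_sum, map_zero] at h2
    rw [← h2]
    refine Finset.sum_congr rfl fun i _ => ?_
    rw [map_mul, map_pow, hx]

end

end Pool.Agent.N751.VD
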