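import Pool.Agent.N751.VD.Stm
import Pool.Agent.N751.VD.Pt
import Pool.Agent.N31.FR.Tot

/-!
# VD/LOW: there are many closed points of degree at most `r` on affine varieties
-/

set_option autoImplicit false
set_option linter.unusedSectionVars false

namespace Pool.Agent.N751.VD.Low

open NumberField Module Polynomial Height Pool.Agent.N753.DR

variable {K : Type} [Field K] [NumberField K] {s : ℕ}
variable {A : Type} [CommRing A] [Algebra K A] [Algebra (MvPolynomial (Fin s) K) A]
  [IsScalarTower K (MvPolynomial (Fin s) K) A] [Module.Finite (MvPolynomial (Fin s) K) A]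
  [FaithfulSMul (MvPolynomial (Fin s) K) A]

/-- the closed point over the zero of `p` -/
theorem step {N : ℕ} (y : Fin N → A) {b : ℕ}
    (hpt : ∀ (i₀ : Fin s) (v : Fin s → K)
      (M₀ : Type) [Field M₀] [NumberField M₀] [Algebra K M₀] (τ : M₀),
      Function.Surjective (Polynomial.aeval τ : K[X] →ₐ[K] M₀) →
      ∃ (M : Type) (_ : Field M) (_ : NumberField M) (_ : Algebra K M) (x : A →ₐ[K] M)
        (_ : Algebra M₀ M) (_ : IsScalarTower K M₀ M), Function.Surjective x ∧
        (∀ r : MvPolynomial (Fin s) K, x (algebraMap (MvPolynomial (Fin s) K) A r) =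
          Polynomial.aeval (algebraMap M₀ M τ) (line i₀ v r)) ∧
        finrank M₀ M ≤ b)
    (i₀ : Fin s) (v : Fin s → K) (m : Fin N → ℕ) (C : Fin N → ℝ)
    (hC : ∀ j, 0 ≤ C j ∧ ∀ (M : Type) [Field M] [NumberField M] [Algebra K M] (x : A →ₐ[K] M)
      (t : M), (∀ r : MvPolynomial (Fin s) K, x (algebraMap (MvPolynomial (Fin s) K) A r) =
          Polynomial.aeval t (line i₀ v r)) →
      logHeight₁ (x (y j)) ≤ m j * logHeight₁ t + finrank ℚ M * C j)
    (f : A) (a : MvPolynomial (Fin s) K)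
    (ha : algebraMap (MvPolynomial (Fin s) K) A a ∈ Ideal.span {f})
    {r' r : ℕ} (hr : b * r' ≤ r) {m' : ℕ} (hm' : ∑ j, m j ≤ m') {U' U : ℝ}
    (hU' : 0 ≤ U') (hU : m' * U' + ∑ j, C j ≤ U) {p : K[X]}
    (hp : AtH r' (finrank ℚ K * r' * U') p) (hpa : ¬ p ∣ line i₀ v a) :
    ∃ I : Ideal A, Pt K y r U I ∧ f ∉ I ∧ ∀ q : K[X],
      algebraMap (MvPolynomial (Fin s) K) A (Polynomial.aeval (MvPolynomial.X i₀) q) ∈ I ↔
        p ∣ q := by
  classical
  obtain ⟨M₀, _, _, _, τ, h1, h2, rfl, h3⟩ := hp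
  have hfd : FiniteDimensional K M₀ := Module.Finite.of_restrictScalars_finite ℚ K M₀
  have hint : IsIntegral K τ := Algebra.IsIntegral.isIntegral τ
  have hsurj : Function.Surjective (Polynomial.aeval τ : K[X] →ₐ[K] M₀) := by
    have h4 : IntermediateField.adjoin K {τ} = ⊤ := by
      apply IntermediateField.eq_of_le_of_finrank_le le_top
      rw [IntermediateField.adjoin.finrank hint, h2, IntermediateField.finrank_top', h1]
    have h5 : Algebra.adjoin K {τ} = ⊤ := by
      have h6 := IntermediateField.adjoin_simple_toSubalgebra_of_isAlgebraic hint.isAlgebraic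
      rw [← h6, h4]
      rfl
    intro z
    have h6 : z ∈ Algebra.adjoin K {τ} := by
      rw [h5]
      trivial
    rw [Algebra.adjoin_singleton_eq_range_aeval] at h6
    exact h6
  obtain ⟨M, _, _, _, x, _, _, hx1, hx2, hx3⟩ := hpt i₀ v M₀ τ hsurj
  set t : M := algebraMap M₀ M τ with ht
  have hfd2 : FiniteDimensional K M := Module.Finite.of_restrictScalars_finite ℚ K M
  have hfd3 : FiniteDimensional M₀ M := Module.Finite.of_restrictScalars_finite ℚ M₀ M
  have hdeg1 : finrank K M = r' * finrank M₀ M := by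
    rw [← finrank_mul_finrank K M₀ M, h1]
  have hdeg2 : finrank ℚ M = finrank ℚ K * (r' * finrank M₀ M) := by
    rw [← hdeg1, finrank_mul_finrank ℚ K M]
  have hq : ∀ q : K[X], aeval t q = 0 ↔ minpoly K τ ∣ q := by
    intro q
    rw [ht, aeval_algebraMap_apply, map_eq_zero]
    exact (minpoly.dvd_iff).symm
  refine ⟨RingHom.ker x, ⟨M, inferInstance, inferInstance, inferInstance, x, hx1, rfl, ?_, ?_⟩,
    ?_, ?_⟩
  · rw [hdeg1]
    calc r' * finrank M₀ M ≤ r' * b := Nat.mul_le_mul_left _ hx3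
      _ = b * r' := mul_comm _ _
      _ ≤ r := hr
  · have h4 : logHeight₁ t ≤ finrank ℚ M * U' := by
      rw [ht, Pool.Agent.N265.CV.ht1_ext]
      calc (finrank M₀ M : ℝ) * logHeight₁ τ ≤ finrank M₀ M * (finrank ℚ K * r' * U') :=
            mul_le_mul_of_nonneg_left h3 (Nat.cast_nonneg _)
        _ = finrank ℚ M * U' := by
            rw [hdeg2]
            push_cast
            ring
    unfold VD.ht
    refine (ht_tuple_le _).trans ?_
    calc ∑ j, logHeight₁ (x (y j)) ≤ ∑ j, ((m j : ℝ) * (finrank ℚ M * U') +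
          finrank ℚ M * C j) := by
          refine Finset.sum_le_sum fun j _ => ((hC j).2 M x t hx2).trans ?_
          gcongr
      _ = ((∑ j, m j : ℕ) : ℝ) * (finrank ℚ M * U') + finrank ℚ M * ∑ j, C j := by
          rw [Finset.sum_add_distrib, ← Finset.sum_mul, Finset.mul_sum]
          push_cast
          rfl
      _ ≤ (m' : ℝ) * (finrank ℚ M * U') + finrank ℚ M * ∑ j, C j := by
          gcongr
      _ = (m' * U' + ∑ j, C j) * finrank ℚ M := by ring
      _ ≤ U * finrank ℚ M := by gcongr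
  · intro hf
    apply hpa
    rw [← hq, ← hx2]
    have h4 : Ideal.span {f} ≤ RingHom.ker x := by
      rw [Ideal.span_le, Set.singleton_subset_iff]
      exact hf
    exact h4 ha
  · intro q
    rw [← hq, RingHom.mem_ker, hx2]
    have h4 : line i₀ v (Polynomial.aeval (MvPolynomial.X i₀) q) = q := by
      rw [← Polynomial.aeval_algHom_apply]
      have : line i₀ v (MvPolynomial.X i₀) = X := by simp [line]
      rw [this, aeval_X_left_apply]
    rw [h4]

/-- the points over one line -/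
theorem core {N : ℕ} (y : Fin N → A) [IsDomain A] (i₀ : Fin s) :
    ∃ c : ℝ, 0 < c ∧ ∃ r₁ : ℕ, ∀ r : ℕ, r₁ ≤ r → ∀ f : A, f ≠ 0 → ∃ U₀ : ℝ, ∀ U : ℝ, U₀ ≤ U →
    ∃ T : Finset (Ideal A), (∀ p ∈ T, Pt K y r U p ∧ f ∉ p) ∧
      Real.exp (c * r ^ 2 * U) ≤ T.card := by
  classical
  obtain ⟨b, hb, hpt⟩ := pt (K := K) (s := s) (A := A)
  choose m hm using fun j => ht_val (K := K) (s := s) (A := A) (y j)
  set m' : ℕ := ∑ j, m j + 1 with hm'
  have hint : Algebra.IsIntegral (MvPolynomial (Fin s) K) A := Algebra.IsIntegral.of_finite _ _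
  have hn0 : (1 : ℝ) ≤ finrank ℚ K := by
    exact_mod_cast Nat.succ_le_of_lt (finrank_pos (R := ℚ) (M := K))
  have hb1 : (1 : ℝ) ≤ b := by exact_mod_cast hb
  have hm1 : (1 : ℝ) ≤ m' := by
    rw [hm']
    push_cast
    have : (0 : ℝ) ≤ ∑ j, (m j : ℝ) := Finset.sum_nonneg fun j _ => Nat.cast_nonneg _
    linarith
  set c : ℝ := finrank ℚ K / (8 * b ^ 2 * m') with hc
  have hc0 : 0 < c := by
    rw [hc]
    positivity
  refine ⟨c, hc0, 2 * b, fun r hr f hf => ?_⟩
  -- the polynomial `a`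
  obtain ⟨a, haI, ha0⟩ := (Submodule.ne_bot_iff _).1 (Ideal.comap_ne_bot_of_integral_mem
    (R := MvPolynomial (Fin s) K) (S := A) (I := Ideal.span {f}) hf
    (Ideal.mem_span_singleton_self f) (hint.isIntegral f))
  rw [Ideal.mem_comap] at haI
  obtain ⟨v, hv⟩ := exists_line i₀ a ha0
  choose C hC using fun j => hm j i₀ v
  set Ct : ℝ := ∑ j, C j with hCt
  have hCt0 : 0 ≤ Ct := Finset.sum_nonneg fun j _ => (hC j).1
  set r' : ℕ := r / b with hr'
  have hr'1 : 1 ≤ r' := by
    rw [hr', Nat.one_le_div_iff (by omega)]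
    omega
  have hr'2 : b * r' ≤ r := Nat.mul_div_le r b
  have hr'3 : (r : ℝ) ≤ 2 * b * r' := by
    have h1 : r < b * (r' + 1) := by
      have := Nat.lt_mul_div_succ r (b := b) (by omega)
      rw [hr']
      exact this
    have h2 : r ≤ 2 * b * r' := by
      have h3 : b * (r' + 1) ≤ 2 * b * r' := by nlinarith
      omega
    exact_mod_cast h2
  obtain ⟨c₁, U₁, hc₁, hT⟩ := Pool.Agent.N31.FR.t K r' hr'1
  -- the factors of the polynomial
  set P : K[X] := line i₀ v a with hP
  set D : ℕ := (UniqueFactorizationMonoid.normalizedFactors P).toFinset.card with hD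
  have hr0 : (1 : ℝ) ≤ r := by
    have : 1 ≤ r := by omega
    exact_mod_cast this
  -- the constants
  set K₀ : ℝ := (r' + 1) * (finrank ℚ K * r') * Ct / m' with hK₀
  set c₂ : ℝ := c₁ * Real.exp (-K₀) with hc₂
  have hc₂0 : 0 < c₂ := by
    rw [hc₂]
    positivity
  refine ⟨Ct + m' * |U₁| + (2 / c₂ + D) / (c * r ^ 2), fun U hU => ?_⟩
  have hD0 : 0 ≤ (2 / c₂ + D) / (c * r ^ 2) := by positivity
  set U' : ℝ := (U - Ct) / m' with hU'
  have hU1 : |U₁| ≤ U' := by
    rw [hU', le_div_iff₀ (by linarith)]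
    linarith
  have hU0 : 0 ≤ U' := (abs_nonneg _).trans hU1
  have hU2 : m' * U' + Ct ≤ U := by
    rw [hU', mul_div_cancel₀ _ (by linarith)]
    linarith
  have hU3 : (2 / c₂ + D) / (c * r ^ 2) ≤ U := by
    have : 0 ≤ m' * |U₁| := by positivity
    linarith
  have hUp : 0 ≤ U := hD0.trans hU3
  have hr'r : (1 : ℝ) ≤ r' := by exact_mod_cast hr'1
  obtain ⟨T, hT1, hT2⟩ := hT (finrank ℚ K * r' * U') (by
    have h1 : U₁ ≤ U' := (le_abs_self _).trans hU1
    have h2 : (1 : ℝ) ≤ finrank ℚ K * r' := by nlinarith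
    nlinarith)
  set T₁ : Finset K[X] := T.filter fun p => ¬ p ∣ P with hT₁
  have hirr : ∀ p ∈ T, p.Monic ∧ Irreducible p := by
    intro p hp
    obtain ⟨M₀, _, _, _, τ, -, -, rfl, -⟩ := hT1 p hp
    have hfd : FiniteDimensional K M₀ := Module.Finite.of_restrictScalars_finite ℚ K M₀
    have hi : IsIntegral K τ := Algebra.IsIntegral.isIntegral τ
    exact ⟨minpoly.monic hi, minpoly.irreducible hi⟩
  have hcard : T.card ≤ T₁.card + D := by
    rw [← Finset.card_filter_add_card_filter_not (s := T) (fun p => ¬ p ∣ P)]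
    refine Nat.add_le_add_left ?_ _
    rw [hD]
    refine Finset.card_le_card ?_
    intro p hp
    obtain ⟨hp1, hp2⟩ := Finset.mem_filter.1 hp
    rw [not_not] at hp2
    rw [Multiset.mem_toFinset, UniqueFactorizationMonoid.mem_normalizedFactors_iff' hv]
    exact ⟨(hirr p hp1).2, (hirr p hp1).1.normalize_eq_self, hp2⟩
  have hstep : ∀ p : K[X], ∃ I : Ideal A, p ∈ T₁ → (Pt K y r U I ∧ f ∉ I ∧ ∀ q : K[X],
      algebraMap (MvPolynomial (Fin s) K) A (Polynomial.aeval (MvPolynomial.X i₀) q) ∈ I ↔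
        p ∣ q) := by
    intro p
    by_cases hp : p ∈ T₁
    · obtain ⟨hp1, hp2⟩ := Finset.mem_filter.1 hp
      obtain ⟨I, hI⟩ := step y hpt i₀ v m C hC f a haI hr'2 (m' := m') (by omega) hU0 hU2
        (hT1 p hp1) hp2
      exact ⟨I, fun _ => hI⟩
    · exact ⟨⊥, fun h => absurd h hp⟩
  choose I hI using hstep
  refine ⟨T₁.image I, ?_, ?_⟩
  · intro J hJ
    obtain ⟨p, hp, rfl⟩ := Finset.mem_image.1 hJ
    exact ⟨(hI p hp).1, (hI p hp).2.1⟩
  · have hinj : Set.InjOn I (T₁ : Set K[X]) := by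
      intro p hp q hq hpq
      have hp' := Finset.mem_coe.1 hp
      have hq' := Finset.mem_coe.1 hq
      have h1 : p ∣ q := by
        rw [← (hI p hp').2.2, hpq, (hI q hq').2.2]
      have h2 : q ∣ p := by
        rw [← (hI q hq').2.2, ← hpq, (hI p hp').2.2]
      exact eq_of_monic_of_associated (hirr p (Finset.mem_filter.1 hp').1).1
        (hirr q (Finset.mem_filter.1 hq').1).1 (associated_of_dvd_dvd h1 h2)
    rw [Finset.card_image_of_injOn hinj]
    have h1 : (T.card : ℝ) ≤ T₁.card + D := by exact_mod_cast hcard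
    have h2 : 2 * (c * r ^ 2 * U) - K₀ ≤ (r' + 1) * (finrank ℚ K * r' * U') := by
      have h3 : (r' + 1) * (finrank ℚ K * r' * U') =
          (r' + 1) * (finrank ℚ K * r') * U / m' - K₀ := by
        rw [hU', hK₀]
        ring
      rw [h3]
      have h4 : 2 * (c * r ^ 2 * U) ≤ (r' + 1) * (finrank ℚ K * r') * U / m' := by
        rw [hc, le_div_iff₀ (by linarith)]
        have h5 : 2 * (finrank ℚ K / (8 * b ^ 2 * m') * r ^ 2 * U) * m' =
            finrank ℚ K * r ^ 2 * U / (4 * (b : ℝ) ^ 2) := by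
          field_simp
          ring
        rw [h5, div_le_iff₀ (by positivity)]
        have h6 : (r : ℝ) ^ 2 ≤ (2 * b * r') ^ 2 := pow_le_pow_left₀ (by linarith) hr'3 2
        have h7 : (r : ℝ) ^ 2 ≤ (r' + 1) * r' * (4 * (b : ℝ) ^ 2) := by nlinarith
        calc (finrank ℚ K : ℝ) * r ^ 2 * U ≤
            finrank ℚ K * ((r' + 1) * r' * (4 * (b : ℝ) ^ 2)) * U := by gcongr
          _ = _ := by ring
      linarith
    set Ex : ℝ := Real.exp (c * r ^ 2 * U) with hEx
    have h3 : 2 / c₂ + D ≤ Ex := by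
      have h4 : 2 / c₂ + D ≤ c * r ^ 2 * U := by
        rw [div_le_iff₀ (by positivity)] at hU3
        linarith
      have := Real.add_one_le_exp (c * r ^ 2 * U)
      linarith
    have h4 : c₂ * Ex ^ 2 ≤ T.card := by
      calc c₂ * Ex ^ 2 = c₁ * Real.exp (2 * (c * r ^ 2 * U) - K₀) := by
            rw [hc₂, hEx, sq, ← Real.exp_add, mul_assoc, ← Real.exp_add]
            congr 2
            ring
        _ ≤ c₁ * Real.exp ((r' + 1) * (finrank ℚ K * r' * U')) := by gcongr
        _ ≤ T.card := hT2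
    have h5 : 0 ≤ 2 / c₂ := by positivity
    have hD' : (0 : ℝ) ≤ D := Nat.cast_nonneg _
    have h6 : 2 ≤ c₂ * Ex := by
      have : 2 / c₂ ≤ Ex := by linarith
      rw [div_le_iff₀ hc₂0] at this
      linarith
    have h7 : 0 < Ex := Real.exp_pos _
    nlinarith

/-- **VD/LOW** -/
theorem t : StmLow := by
  classical
  intro K A _ _ _ _ _ N y hy hA
  have hft : Algebra.FiniteType K A := ⟨⟨Finset.univ.image y, by simpa using hy⟩⟩
  obtain ⟨s, g, hginj, hgfin⟩ := exists_finite_inj_algHom_of_fg (k := K) (R := A)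
  let _ : Algebra (MvPolynomial (Fin s) K) A := g.toRingHom.toAlgebra
  have htow : IsScalarTower K (MvPolynomial (Fin s) K) A :=
    IsScalarTower.of_algebraMap_eq fun c => (g.commutes c).symm
  have hfin : Module.Finite (MvPolynomial (Fin s) K) A := hgfin
  have hfs : FaithfulSMul (MvPolynomial (Fin s) K) A :=
    (faithfulSMul_iff_algebraMap_injective _ _).2 hginj
  have hs : s ≠ 0 := by
    rintro rfl
    apply hA
    have h1 : Module.Finite K (MvPolynomial (Fin 0) K) :=
      Module.Finite.equiv (MvPolynomial.isEmptyAlgEquiv K (Fin 0)).symm.toLinearEquiv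
    exact Module.Finite.trans (MvPolynomial (Fin 0) K) A
  exact core y ⟨0, Nat.pos_of_ne_zero hs⟩

end Pool.Agent.N751.VD.Low
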