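import Pool.Agent.N751.VD.Stm
import Pool.Agent.N751.VD.Pt
import Pool.Agent.H58W.HtNorth

/-!
# The closed points of bounded degree and height are finite in number
-/

set_option autoImplicit false

namespace Pool.Agent.N751.VD

open NumberField Module Polynomial Height Pool.Agent.Helper259.AbsHt

theorem pt_finite {K A : Type} [Field K] [NumberField K] [CommRing A] [Algebra K A] {N : ℕ}
    (y : Fin N → A) (hy : Algebra.adjoin K (Set.range y) = ⊤) (r : ℕ) (U : ℝ) :
    {p : Ideal A | Pt K y r U p}.Finite := by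
  classical
  set Z : Set (AlgebraicClosure ℚ) := {α | (minpoly ℚ α).natDegree ≤ finrank ℚ K * r ∧
    absLogHeight ![1, α] ≤ U} with hZ
  have hZf : Z.Finite := Pool.Agent.H58W.northcott (finrank ℚ K * r) U
  set W : Set (A →+* AlgebraicClosure ℚ) := {g | ∀ i, g (y i) ∈ Z} with hW
  have hWf : W.Finite := by
    have h1 : ((Set.univ : Set (K →+* AlgebraicClosure ℚ)) ×ˢ
        (Set.univ.pi fun _ : Fin N => Z)).Finite :=
      Set.Finite.prod Set.finite_univ (Set.Finite.pi fun _ => hZf)
    refine Set.Finite.of_finite_image (f := fun g : A →+* AlgebraicClosure ℚ =>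
      (g.comp (algebraMap K A), fun i => g (y i))) (h1.subset ?_) ?_
    · rintro _ ⟨g, hg, rfl⟩
      exact ⟨Set.mem_univ _, fun i _ => hg i⟩
    · intro g _ g' _ h
      simp only [Prod.mk.injEq] at h
      obtain ⟨h2, h3⟩ := h
      let _ : Algebra K (AlgebraicClosure ℚ) := (g.comp (algebraMap K A)).toAlgebra
      let G : A →ₐ[K] AlgebraicClosure ℚ := { g with commutes' := fun c => rfl }
      let G' : A →ₐ[K] AlgebraicClosure ℚ :=
        { g' with commutes' := fun c => (RingHom.congr_fun h2 c).symm }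
      have h4 : G = G' := by
        refine AlgHom.ext_of_adjoin_eq_top hy ?_
        rintro _ ⟨i, rfl⟩
        exact congrFun h3 i
      ext a
      exact congrArg (fun F : A →ₐ[K] AlgebraicClosure ℚ => F a) h4
  refine (hWf.image RingHom.ker).subset ?_
  rintro p ⟨M, _, _, _, x, hx1, rfl, hx2, hx3⟩
  let φ : M →ₐ[ℚ] AlgebraicClosure ℚ := IsAlgClosed.lift
  refine ⟨(φ : M →+* AlgebraicClosure ℚ).comp (x : A →+* M), fun i => ?_, ?_⟩
  · show φ (x (y i)) ∈ Z
    refine ⟨?_, ?_⟩
    · rw [minpoly.algHom_eq φ φ.injective]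
      refine (minpoly.natDegree_le _).trans ?_
      rw [← finrank_mul_finrank ℚ K M]
      exact Nat.mul_le_mul_left _ hx2
    · have h1 := absLogHeight_eq M (φ : M →+* AlgebraicClosure ℚ) ![1, x (y i)]
      have e : (fun j => (φ : M →+* AlgebraicClosure ℚ) (![1, x (y i)] j)) =
          ![1, φ (x (y i))] := by
        funext j
        fin_cases j <;> simp
      rw [e] at h1
      rw [h1]
      have hM : (0 : ℝ) < finrank ℚ M := by exact_mod_cast finrank_pos (R := ℚ) (M := M)
      rw [div_le_iff₀ hM, logHeight_swap, ← logHeight₁_eq_logHeight]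
      exact (ht_coord_le (fun i => x (y i)) i).trans hx3
  · ext a
    rw [RingHom.mem_ker, RingHom.mem_ker]
    show φ (x a) = 0 ↔ x a = 0
    rw [map_eq_zero]

end Pool.Agent.N751.VD
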