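import Pool.Agent.N751.VD.Low
import Pool.Agent.N751.VD.North
import Pool.Agent.N234.VD.Lv

/-!
# Vojta's inequality for almost all closed points of bounded degree (project VD): assembly
-/

set_option autoImplicit false

namespace Pool.Agent.N751.VD

open NumberField Module Polynomial Height

/-- the assembly -/
theorem main (hUp : StmUp) (K A : Type) [Field K] [NumberField K] [CommRing A] [IsDomain A]
    [Algebra K A] (N : ℕ) (y : Fin N → A) (hy : Algebra.adjoin K (Set.range y) = ⊤)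
    (hA : ¬ Module.Finite K A) :
    ∃ c : ℝ, 0 < c ∧ ∃ r₀ : ℕ, 2 ≤ r₀ ∧ ∀ r : ℕ, r₀ ≤ r → ∀ f : A, f ≠ 0 → ∃ U₀ : ℝ, ∀ U : ℝ,
      U₀ ≤ U → {p : Ideal A | Pt K y r U p ∧ f ∉ p}.Finite ∧
        Real.exp (c * r ^ 2 * U) ≤ {p : Ideal A | Pt K y r U p ∧ f ∉ p}.ncard ∧
        ({p : Ideal A | Pt K y r U p ∧ Small K y (c * r / (Real.log r) ^ 2) p}.ncard : ℝ) ≤
          Real.exp (-(c * r ^ 2 * U)) * {p : Ideal A | Pt K y r U p ∧ f ∉ p}.ncard := by
  classical
  obtain ⟨B, hB, hU⟩ := hUp K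
  obtain ⟨c₀, hc₀, r₁, hL⟩ := Low.t K A N y hy hA
  set c : ℝ := c₀ / (2 * (B + 1)) with hc
  have hcp : 0 < c := by positivity
  have hc1 : c * (B + 1) = c₀ / 2 := by
    rw [hc]
    field_simp
  have hcc : c ≤ c₀ := by nlinarith
  refine ⟨c, hcp, max (max r₁ 2) ⌈4 * B * N / c₀⌉₊, by simp, fun r hr f hf => ?_⟩
  have hr1 : r₁ ≤ r := ((le_max_left _ _).trans (le_max_left _ _)).trans hr
  have hr2 : 2 ≤ r := ((le_max_right _ _).trans (le_max_left _ _)).trans hr
  have hr3 : 4 * B * N ≤ c₀ * r := by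
    have h1 : 4 * B * N / c₀ ≤ r := (Nat.le_ceil _).trans (by
      exact_mod_cast (le_max_right _ _).trans hr)
    rw [div_le_iff₀ hc₀] at h1
    linarith
  have hr0 : (2 : ℝ) ≤ r := by exact_mod_cast hr2
  have hlog : 0 < Real.log r := Real.log_pos (by linarith)
  obtain ⟨U₁, hU1⟩ := hL r hr1 f hf
  obtain ⟨C, hC, hUr⟩ := hU A N y hy r hr2
  refine ⟨max (max U₁ 0) (|Real.log C| / (c₀ * r ^ 2 / 4)), fun U hUU => ?_⟩
  have hUa : U₁ ≤ U := ((le_max_left _ _).trans (le_max_left _ _)).trans hUU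
  have hUb : 0 ≤ U := ((le_max_right _ _).trans (le_max_left _ _)).trans hUU
  have hUc : |Real.log C| ≤ c₀ * r ^ 2 / 4 * U := by
    have h1 := (le_max_right _ _).trans hUU
    rw [div_le_iff₀ (by positivity)] at h1
    linarith
  obtain ⟨T, hT1, hT2⟩ := hU1 U hUa
  have hfin : {p : Ideal A | Pt K y r U p ∧ f ∉ p}.Finite :=
    (pt_finite y hy r U).subset fun p hp => hp.1
  have hcard : Real.exp (c₀ * r ^ 2 * U) ≤ {p : Ideal A | Pt K y r U p ∧ f ∉ p}.ncard := by
    refine hT2.trans ?_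
    rw [Set.ncard_eq_toFinset_card _ hfin]
    have : T ⊆ hfin.toFinset := by
      intro p hp
      rw [Set.Finite.mem_toFinset]
      exact hT1 p hp
    exact_mod_cast Finset.card_le_card this
  refine ⟨hfin, le_trans (Real.exp_le_exp.2 (by gcongr)) hcard, ?_⟩
  obtain ⟨-, h2⟩ := hUr (c * r / (Real.log r) ^ 2) U (by positivity) hUb
  refine h2.trans ?_
  have h3 : c * r / (Real.log r) ^ 2 * (Real.log r) ^ 2 = c * r := by
    field_simp
  rw [h3]
  calc C * Real.exp (B * r * (c * r + N) * U) =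
        Real.exp (Real.log C + B * r * (c * r + N) * U) := by
        rw [Real.exp_add, Real.exp_log hC]
    _ ≤ Real.exp (-(c * r ^ 2 * U) + c₀ * r ^ 2 * U) := by
        refine Real.exp_le_exp.2 ?_
        have h4 : Real.log C ≤ c₀ * r ^ 2 / 4 * U := (le_abs_self _).trans hUc
        have h5 : B * r * (c * r + N) * U = c * B * r ^ 2 * U + B * N * (r * U) := by ring
        have h6 : B * N * (r * U) ≤ c₀ * r ^ 2 / 4 * U := by
          have h7 : 0 ≤ (r : ℝ) * U := by positivity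
          have h8 : B * N ≤ c₀ * r / 4 := by linarith
          calc B * N * (r * U) ≤ c₀ * r / 4 * (r * U) := mul_le_mul_of_nonneg_right h8 h7
            _ = _ := by ring
        have h9 : c * B * r ^ 2 * U = c₀ / 2 * r ^ 2 * U - c * r ^ 2 * U := by
          rw [← hc1]
          ring
        rw [h5, h9]
        nlinarith
    _ = Real.exp (-(c * r ^ 2 * U)) * Real.exp (c₀ * r ^ 2 * U) := Real.exp_add _ _
    _ ≤ _ := mul_le_mul_of_nonneg_left hcard (Real.exp_pos _).le

end Pool.Agent.N751.VD
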