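import Mathlib

/-!
# The discriminants of the closed points of bounded degree on affine varieties (project VD)

`A` is an algebra of finite type over the number field `K`, `y` a finite family of generators. The
closed points `p` of `Spec A` are the kernels of the surjective homomorphisms `x : A → M` onto number
fields `M` over `K`.
-/

set_option autoImplicit false

namespace Pool.Agent.N751.VD

open NumberField Module

section

variable {K A : Type} [Field K] [CommRing A] [Algebra K A] {N : ℕ}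

/-- the (not normalised) height of the point `(1 : y_1(x) : … : y_N(x))` -/
noncomputable def ht (y : Fin N → A) {M : Type} [Field M] [NumberField M] [Algebra K M]
    (x : A →ₐ[K] M) : ℝ :=
  Height.logHeight (Fin.cons 1 fun i => x (y i) : Fin (N + 1) → M)

/-- `p` is a closed point of degree at most `r` over `K` and of absolute height at most `U` -/
def Pt (K : Type) [Field K] [Algebra K A] (y : Fin N → A) (r : ℕ) (U : ℝ) (p : Ideal A) : Prop :=
  ∃ (M : Type) (_ : Field M) (_ : NumberField M) (_ : Algebra K M) (x : A →ₐ[K] M),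
    Function.Surjective x ∧ RingHom.ker x = p ∧ finrank K M ≤ r ∧ ht y x ≤ U * finrank ℚ M

/-- the discriminant of the closed point `p` is small, compared with the height -/
def Small (K : Type) [Field K] [Algebra K A] (y : Fin N → A) (G : ℝ) (p : Ideal A) : Prop :=
  ∃ (M : Type) (_ : Field M) (_ : NumberField M) (_ : Algebra K M) (x : A →ₐ[K] M),
    Function.Surjective x ∧ RingHom.ker x = p ∧ Real.log |(discr M : ℝ)| < G * ht y x

end

/-- **VD/UP** few closed points have small discriminants -/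
def StmUp : Prop := ∀ (K : Type) [Field K] [NumberField K], ∃ B : ℝ, 0 < B ∧
  ∀ (A : Type) [CommRing A] [Algebra K A] (N : ℕ) (y : Fin N → A),
    Algebra.adjoin K (Set.range y) = ⊤ → ∀ r : ℕ, 2 ≤ r → ∃ C : ℝ, 0 < C ∧ ∀ G U : ℝ, 0 ≤ G → 0 ≤ U →
      {p : Ideal A | Pt K y r U p ∧ Small K y G p}.Finite ∧
      ({p : Ideal A | Pt K y r U p ∧ Small K y G p}.ncard : ℝ) ≤
        C * Real.exp (B * r * (G * (Real.log r) ^ 2 + N) * U)

/-- **VD/LOW** there are many closed points of degree at most `r` -/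
def StmLow : Prop := ∀ (K A : Type) [Field K] [NumberField K] [CommRing A] [IsDomain A]
  [Algebra K A] (N : ℕ) (y : Fin N → A), Algebra.adjoin K (Set.range y) = ⊤ → ¬ Module.Finite K A →
  ∃ c : ℝ, 0 < c ∧ ∃ r₁ : ℕ, ∀ r : ℕ, r₁ ≤ r → ∀ f : A, f ≠ 0 → ∃ U₀ : ℝ, ∀ U : ℝ, U₀ ≤ U →
    ∃ T : Finset (Ideal A), (∀ p ∈ T, Pt K y r U p ∧ f ∉ p) ∧
      Real.exp (c * r ^ 2 * U) ≤ T.card

/-- the sum of the local heights `log (max(1, |z_1|_w, …, |z_N|_w) ^ e / |Q(z)|_w)` over finite sets
of places -/
noncomputable def prox {M : Type} [Field M] [NumberField M] {N : ℕ} (T₀ : Finset (InfinitePlace M))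
    (T : Finset (FinitePlace M)) (e : ℕ) (z : Fin N → M) (q : M) : ℝ :=
  ∑ w ∈ T₀, (w.mult : ℝ) * Real.log ((⨆ i, w ((Fin.cons 1 z : Fin (N + 1) → M) i)) ^ e / w q) +
    ∑ w ∈ T, Real.log ((⨆ i, w ((Fin.cons 1 z : Fin (N + 1) → M) i)) ^ e / w q)

/-- **VD/LV** the inequality of Liouville -/
def StmLv : Prop := ∀ (K : Type) [Field K] [NumberField K] (N e : ℕ) (Q : MvPolynomial (Fin N) K),
  Q.totalDegree ≤ e → ∃ C : ℝ, ∀ (M : Type) [Field M] [NumberField M] [Algebra K M]
    (z : Fin N → M), MvPolynomial.aeval z Q ≠ 0 → ∀ (T₀ : Finset (InfinitePlace M))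
    (T : Finset (FinitePlace M)), prox T₀ T e z (MvPolynomial.aeval z Q) ≤
      e * Height.logHeight (Fin.cons 1 z : Fin (N + 1) → M) + C * finrank ℚ M

end Pool.Agent.N751.VD
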